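import Mathlib
import Pool.Agent.Lib_helper91.NodalG

/-!
# Maximal nodal counts in two-dimensional Neumann eigenspaces of the square

We prove Q1 of MP_52cbbb_an: in every two-dimensional Neumann eigenspace of the square
`(0,π)²` the largest nodal count is attained at one of the parameters
`θ = 0, π/4, π/2, 3π/4, π`.
-/

set_option autoImplicit false

namespace Pool.Agent.Results.MP_52cbbb_an.NodalMax

noncomputable section
open Real Set

/-- The product function `cos (m x) cos (n y)`. -/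
def cc (m n : ℕ) : ℝ × ℝ → ℝ := fun z => cos (m * z.1) * cos (n * z.2)

/-- The Neumann eigenspace of the square for the eigenvalue `lam`: the real span of the
functions `cos (m x) cos (n y)` with `m² + n² = lam`. -/
def E (lam : ℝ) : Submodule ℝ (ℝ × ℝ → ℝ) :=
  Submodule.span ℝ {u | ∃ m n : ℕ, (m : ℝ) ^ 2 + (n : ℝ) ^ 2 = lam ∧ u = cc m n}

/-- The family `Φ^θ_{p,q}`. -/
def PhiT (p q : ℕ) (θ : ℝ) : ℝ × ℝ → ℝ := fun z =>
  cos θ * (cos (p * z.1) * cos (q * z.2)) + sin θ * (cos (q * z.1) * cos (p * z.2))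

/-- The open square `(0,π)²`. -/
def Omega : Set (ℝ × ℝ) := Ioo 0 π ×ˢ Ioo 0 π

/-- The number of nodal domains of `u`: the number of connected components of
`Omega` minus the zero set of `u`. -/
def mu (u : ℝ × ℝ → ℝ) : ℕ∞ :=
  ENat.card (ConnectedComponents {z : ℝ × ℝ // z ∈ Omega ∧ u z ≠ 0})

open Pool.Agent.Lib_helper91.Nodal in
lemma mu_eq (u : ℝ × ℝ → ℝ) : mu u = nodalCount u := rfl

/-- the five angles -/
def five : Set ℝ := {0, π / 4, π / 2, 3 * π / 4, π}

lemma indep {p q : ℕ} (hpq : q < p) {a b : ℝ} (h : a • cc p q + b • cc q p = 0) :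
    a = 0 ∧ b = 0 := by
  have hp : (0 : ℝ) < p := by
    have : 0 < p := by omega
    exact_mod_cast this
  have hpq' : (q : ℝ) < p := by exact_mod_cast hpq
  have h0 := congrFun h (0, 0)
  have h1 := congrFun h (π / (2 * p), 0)
  simp only [cc, Pi.add_apply, Pi.smul_apply, smul_eq_mul, mul_zero, cos_zero, mul_one,
    Pi.zero_apply] at h0 h1
  have e1 : (p : ℝ) * (π / (2 * p)) = π / 2 := by field_simp
  rw [e1, cos_pi_div_two, mul_zero, zero_add] at h1
  have h2 : 0 < cos (q * (π / (2 * p))) := by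
    apply cos_pos_of_mem_Ioo
    have hw : 0 < π / (2 * p) := by positivity
    constructor
    · have : 0 ≤ q * (π / (2 * p)) := by positivity
      linarith [pi_pos]
    · rw [← e1]; exact mul_lt_mul_of_pos_right hpq' hw
  rcases mul_eq_zero.1 h1 with h3 | h3
  · exact ⟨by rw [h3] at h0; linarith, h3⟩
  · exact absurd h3 h2.ne'

open Pool.Agent.Lib_helper91.Nodal in
lemma count_zero (p q : ℕ) : (((p + 1) * (q + 1) : ℕ) : ℕ∞) ≤ mu (PhiT p q 0) := by
  have : PhiT p q 0 = fun z => cos (p * z.1) * cos (q * z.2) := by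
    funext z; simp [PhiT]
  rw [this]
  exact count_lower p q

open Pool.Agent.Lib_helper91.Nodal in
lemma bound {p q : ℕ} (hpq : q < p) {a b : ℝ} (hab : ¬ (a = 0 ∧ b = 0)) :
    ∃ θ ∈ five, mu (a • cc p q + b • cc q p) ≤ mu (PhiT p q θ) := by
  rcases lt_trichotomy |b| |a| with h | h | h
  · refine ⟨0, by simp [five], ?_⟩
    have ha : a ≠ 0 := by
      rintro rfl
      rw [abs_zero] at h
      exact absurd h (not_lt.2 (abs_nonneg b))
    have e : a • cc p q + b • cc q p = a • Phi p q (b / a) := by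
      funext z
      simp only [cc, Phi, Pi.add_apply, Pi.smul_apply, smul_eq_mul]
      field_simp
    rw [e, mu_eq, count_smul ha]
    refine le_trans (count_upper hpq ?_) (count_zero p q)
    rw [abs_div, div_lt_one (abs_pos.2 ha)]; exact h
  · have hr : √2 ≠ 0 := by positivity
    have h2 : √2 * √2 = 2 := mul_self_sqrt (by norm_num)
    rcases abs_eq_abs.1 h with h' | h'
    · -- b = a
      subst h'
      refine ⟨π / 4, by simp [five], ?_⟩
      have hb : b ≠ 0 := fun h0 => hab ⟨h0, h0⟩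
      have e : b • cc p q + b • cc q p = (b * √2) • PhiT p q (π / 4) := by
        funext z
        simp only [cc, PhiT, Pi.add_apply, Pi.smul_apply, smul_eq_mul]
        rw [cos_pi_div_four, sin_pi_div_four]
        linear_combination (-(b * (cos (p * z.1) * cos (q * z.2)) +
          b * (cos (q * z.1) * cos (p * z.2))) / 2) * h2
      rw [e, mu_eq, count_smul (mul_ne_zero hb hr)]
      exact le_of_eq (mu_eq _).symm
    · -- b = -a
      subst h'
      refine ⟨3 * π / 4, by simp [five], ?_⟩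
      have ha : a ≠ 0 := fun h0 => hab ⟨h0, by rw [h0, neg_zero]⟩
      have hc : cos (3 * π / 4) = -(√2 / 2) := by
        rw [show 3 * π / 4 = π - π / 4 by ring, cos_pi_sub, cos_pi_div_four]
      have hs : sin (3 * π / 4) = √2 / 2 := by
        rw [show 3 * π / 4 = π - π / 4 by ring, sin_pi_sub, sin_pi_div_four]
      have e : a • cc p q + (-a) • cc q p = (-(a * √2)) • PhiT p q (3 * π / 4) := by
        funext z
        simp only [cc, PhiT, Pi.add_apply, Pi.smul_apply, smul_eq_mul]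
        rw [hc, hs]
        linear_combination (-(a * (cos (p * z.1) * cos (q * z.2)) -
          a * (cos (q * z.1) * cos (p * z.2))) / 2) * h2
      rw [e, mu_eq, count_smul (neg_ne_zero.2 (mul_ne_zero ha hr))]
      exact le_of_eq (mu_eq _).symm
  · refine ⟨0, by simp [five], ?_⟩
    have hb : b ≠ 0 := by
      rintro rfl
      rw [abs_zero] at h
      exact absurd h (not_lt.2 (abs_nonneg a))
    have e : a • cc p q + b • cc q p = b • (fun z => Phi p q (a / b) (z.2, z.1)) := by
      funext z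
      simp only [cc, Phi, Pi.add_apply, Pi.smul_apply, smul_eq_mul]
      field_simp
      ring
    rw [e, mu_eq, count_smul hb, count_swap]
    refine le_trans (count_upper hpq ?_) (count_zero p q)
    rw [abs_div, div_lt_one (abs_pos.2 hb)]; exact h

lemma cc_mem {lam : ℝ} {m n : ℕ} (h : (m : ℝ) ^ 2 + (n : ℝ) ^ 2 = lam) : cc m n ∈ E lam :=
  Submodule.subset_span ⟨m, n, h, rfl⟩

lemma E_eq {lam : ℝ} (hdim : Module.finrank ℝ (E lam) = 2) {p q : ℕ} (hpq : q < p)
    (h : (p : ℝ) ^ 2 + (q : ℝ) ^ 2 = lam) {u : ℝ × ℝ → ℝ} (hu : u ∈ E lam) :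
    ∃ a b : ℝ, u = a • cc p q + b • cc q p := by
  have hf : cc p q ∈ E lam := cc_mem h
  have hg : cc q p ∈ E lam := cc_mem (by rw [← h]; ring)
  have hli : LinearIndependent ℝ ![cc p q, cc q p] := by
    rw [LinearIndependent.pair_iff]
    intro a b hab
    exact indep hpq hab
  have hle : Submodule.span ℝ (Set.range ![cc p q, cc q p]) ≤ E lam := by
    rw [Submodule.span_le]
    rintro _ ⟨i, rfl⟩
    fin_cases i
    · exact hf
    · exact hg
  have hfin : Module.Finite ℝ (E lam) := Module.finite_of_finrank_pos (by rw [hdim]; norm_num)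
  have heq : Submodule.span ℝ (Set.range ![cc p q, cc q p]) = E lam := by
    apply Submodule.eq_of_le_of_finrank_le hle
    rw [hdim, finrank_span_eq_card hli]
    simp
  rw [← heq, Matrix.range_cons, Matrix.range_cons, Matrix.range_empty, union_empty,
    singleton_union, Submodule.mem_span_pair] at hu
  obtain ⟨a, b, hab⟩ := hu
  exact ⟨a, b, hab.symm⟩

lemma exists_pair {lam : ℝ} (hdim : Module.finrank ℝ (E lam) = 2) :
    ∃ p q : ℕ, q < p ∧ (p : ℝ) ^ 2 + (q : ℝ) ^ 2 = lam := by
  by_contra hcon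
  push Not at hcon
  have hdiag : ∀ m n : ℕ, (m : ℝ) ^ 2 + (n : ℝ) ^ 2 = lam → m = n := by
    intro m n h
    by_contra hne
    rcases lt_or_gt_of_ne hne with h1 | h1
    · exact hcon n m h1 (by rw [← h]; ring)
    · exact hcon m n h1 h
  by_cases hex : ∃ m n : ℕ, (m : ℝ) ^ 2 + (n : ℝ) ^ 2 = lam
  · obtain ⟨m, n, hmn⟩ := hex
    have hsub : {u | ∃ m n : ℕ, (m : ℝ) ^ 2 + (n : ℝ) ^ 2 = lam ∧ u = cc m n} ⊆ {cc m m} := by
      rintro u ⟨m', n', h', rfl⟩
      have e1 := hdiag m n hmn
      have e2 := hdiag m' n' h'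
      subst e1; subst e2
      have : (m : ℝ) = m' := by
        have h3 : (m : ℝ) ^ 2 = (m' : ℝ) ^ 2 := by linarith
        exact (sq_eq_sq₀ (Nat.cast_nonneg m) (Nat.cast_nonneg m')).1 h3
      have : m = m' := by exact_mod_cast this
      rw [this]; rfl
    have hle : E lam ≤ Submodule.span ℝ {cc m m} := Submodule.span_mono hsub
    have h1 := Submodule.finrank_mono hle
    have h2 := finrank_span_le_card (R := ℝ) ({cc m m} : Set (ℝ × ℝ → ℝ))
    simp at h2
    omega
  · have : {u | ∃ m n : ℕ, (m : ℝ) ^ 2 + (n : ℝ) ^ 2 = lam ∧ u = cc m n} = ∅ := by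
      apply Set.eq_empty_of_forall_notMem
      rintro u ⟨m, n, h, _⟩
      exact hex ⟨m, n, h⟩
    unfold E at hdim
    rw [this, Submodule.span_empty, finrank_bot] at hdim
    norm_num at hdim

/-- **Q1 of MP_52cbbb_an is true.** -/
theorem result (lam : ℝ) (hdim : Module.finrank ℝ (E lam) = 2) :
    (∃ p q : ℕ, q < p ∧ (p : ℝ) ^ 2 + (q : ℝ) ^ 2 = lam) ∧
    ∀ p q : ℕ, q < p → (p : ℝ) ^ 2 + (q : ℝ) ^ 2 = lam →
      ∃ M : ℕ∞, IsGreatest (mu '' {u | u ∈ E lam ∧ u ≠ 0}) M ∧
        IsGreatest (mu '' (PhiT p q '' {0, π / 4, π / 2, 3 * π / 4, π})) M := by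
  refine ⟨exists_pair hdim, ?_⟩
  intro p q hpq h
  have hfin : (five).Finite := by unfold five; exact Set.toFinite _
  obtain ⟨θ0, hθ0, hmax⟩ := Set.exists_max_image five (fun θ => mu (PhiT p q θ)) hfin
    ⟨0, by simp [five]⟩
  refine ⟨mu (PhiT p q θ0), ⟨?_, ?_⟩, ⟨?_, ?_⟩⟩
  · refine mem_image_of_mem _ ⟨?_, ?_⟩
    · have e : PhiT p q θ0 = cos θ0 • cc p q + sin θ0 • cc q p := by
        funext z
        simp [PhiT, cc]
      rw [e]
      exact Submodule.add_mem _ (Submodule.smul_mem _ _ (cc_mem h))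
        (Submodule.smul_mem _ _ (cc_mem (by rw [← h]; ring)))
    · intro h0
      have e : cos θ0 • cc p q + sin θ0 • cc q p = 0 := by
        rw [← h0]
        funext z
        simp [PhiT, cc]
      obtain ⟨h1, h2⟩ := indep hpq e
      have := sin_sq_add_cos_sq θ0
      rw [h1, h2] at this
      norm_num at this
  · rintro _ ⟨u, ⟨hu, hu0⟩, rfl⟩
    obtain ⟨a, b, rfl⟩ := E_eq hdim hpq h hu
    obtain ⟨θ, hθ, hle⟩ := bound hpq (a := a) (b := b) (by
      rintro ⟨rfl, rfl⟩
      apply hu0; simp)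
    exact hle.trans (hmax θ hθ)
  · exact mem_image_of_mem _ (mem_image_of_mem _ hθ0)
  · rintro _ ⟨_, ⟨θ, hθ, rfl⟩, rfl⟩
    exact hmax θ hθ

end
end Pool.Agent.Results.MP_52cbbb_an.NodalMax
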